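import Pool.Agent.Helper67.JZ.NRT
import Pool.Agent.Helper40.KZ.Stmts

/-! SKN5: the kernels of the masses are stationary and positive definite (MP_7a8f48_an). -/

open Finset Filter MeasureTheory Topology
open scoped ComplexConjugate InnerProductSpace

namespace Pool.Agent.Helper40.KZ

open Pool.Agent.Helper16.AZ (T E Op mm fc Ind)
open Pool.Agent.Helper16.BZ (co Wk EE ff EQ)
open Pool.Agent.Helper16.MD (MS PB Am RW Rich)
open Pool.Agent.Helper40.DZ (RI UR SK Good3 EE_RI Wk_RI)
open Pool.Agent.Helper40.JZ (U cs tor Lift pj ms chi vz LM StrP)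
open UnitAddTorus (mFourier)

namespace SKN5

/-- the skew product over a translation with a measurable function preserves the measure -/
theorem mp_SAm (hF : ST_FIB5) {r s : ℕ} (θ : T r) {f : T r → T s} (hf : Measurable f) :
    MeasurePreserving (SA θ f) (mm (r + s)) (mm (r + s)) := by
  have h0 := (hF r s).1
  have h1 : MeasurePreserving (fun z : T r × T s => (z.1 + θ, z.2 + f z.1))
      ((mm r).prod (mm s)) ((mm r).prod (mm s)) := by
    have h1 : MeasurePreserving (fun x : T r => x + θ) (mm r) (mm r) :=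
      measurePreserving_add_right (mm r) θ
    have h2 : Measurable (Function.uncurry fun (x : T r) (k : T s) => k + f x) :=
      measurable_snd.add (hf.comp measurable_fst)
    exact h1.skew_product h2 (Eventually.of_forall fun x =>
      (measurePreserving_add_right (mm s) (f x)).map_eq)
  have h2 : Measurable (SA θ f) := by
    have h3 : Measurable fun y : T (r + s) => (ini y + θ, las y + f (ini y)) :=
      (continuous_ini.measurable.add_const _).prodMk
        (continuous_las.measurable.add (hf.comp continuous_ini.measurable))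
    exact continuous_sn.measurable.comp h3
  refine ⟨h2, ?_⟩
  have h3 : SA θ f ∘ (fun z : T r × T s => sn z.1 z.2) =
      (fun z : T r × T s => sn z.1 z.2) ∘ fun z : T r × T s => (z.1 + θ, z.2 + f z.1) := by
    funext z
    exact SA_sn θ f z.1 z.2
  have h4 : Measure.map (SA θ f) (mm (r + s)) = Measure.map (SA θ f)
      (Measure.map (fun z : T r × T s => sn z.1 z.2) ((mm r).prod (mm s))) := by
    rw [h0.map_eq]
  rw [h4, Measure.map_map h2 h0.measurable, h3, (h0.comp h1).map_eq]

/-- the maps of MTR preserve the measure -/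
theorem mp_tau (hF : ST_FIB5) {r s : ℕ} (σ : T r) {κ : T r → T s} (hκ : Measurable κ)
    (ν : Measure (T s)) [IsProbabilityMeasure ν] :
    MeasurePreserving (fun z : T (r + s) × T s =>
      sn (ini z.1 + σ) (las z.1 + (κ (ini z.1) + z.2))) ((mm (r + s)).prod ν) (mm (r + s)) := by
  have h1 : MeasurePreserving (fun w : T s × T (r + s) =>
      (w.1, sn (ini w.2 + σ) (las w.2 + (κ (ini w.2) + w.1))))
      (ν.prod (mm (r + s))) (ν.prod (mm (r + s))) := by
    have h2 : Measurable (Function.uncurry fun (k : T s) (y : T (r + s)) =>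
        sn (ini y + σ) (las y + (κ (ini y) + k))) := by
      have h3 : Measurable fun w : T s × T (r + s) =>
          (ini w.2 + σ, las w.2 + (κ (ini w.2) + w.1)) :=
        ((continuous_ini.measurable.comp measurable_snd).add_const _).prodMk
          ((continuous_las.measurable.comp measurable_snd).add
            ((hκ.comp (continuous_ini.measurable.comp measurable_snd)).add measurable_fst))
      exact continuous_sn.measurable.comp h3
    exact (MeasurePreserving.id ν).skew_product h2 (Eventually.of_forall fun k =>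
      (mp_SAm hF σ (hκ.add_const k)).map_eq)
  exact (measurePreserving_snd.comp h1).comp Measure.measurePreserving_swap

end SKN5

open SKN5

theorem st_SKN5 : Pool.Agent.Helper40.JZ.ST_TOR → ST_FIB5 → ST_NTF5 → ST_MPA5 → ST_HAR →
    ST_SEL → ST_MTR5 → ST_SKN5 := by
  intro _ hF hNTF _ hHAR hSEL hMTR r s θ f hf q t d φ c hq ht hφ hc
  set S : T (r + s) → T (r + s) := SA θ f with hSdef
  have hS : Continuous S := continuous_SA θ hf
  have hmp : MeasurePreserving S (mm (r + s)) (mm (r + s)) := mp_SAm hF θ hf.measurable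
  have hcRI : RI c := RI.of_continuous hc
  have hg : ∀ k, RI (Wk S φ k c) := fun k => Wk_RI hS hmp hφ hcRI k
  have hE : ∀ k k', RI (EE S φ c k k') := fun k k' => EE_RI hS hmp hφ hcRI k k'
  have hshift : ∀ k k', EE S φ c (k + 1) (k' + 1) = fun y => EE S φ c k k' (S y) := by
    intro k k'
    funext y
    exact Pool.Agent.Helper16.BZ.EE_shift S φ c hφ.2 k k' 1 y
  choose C hC using fun k => (hg k).2
  refine ⟨⟨?_, ?_⟩, ⟨?_, ?_⟩⟩
  · obtain ⟨κ, hκ, hκ2⟩ := hSEL r s θ f q t hq ht
    obtain ⟨ν, hν, hν2⟩ := hHAR s t.1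
    have : IsProbabilityMeasure ν := hν
    obtain ⟨V, i1, i2, i3, w, hw⟩ := Pool.Agent.Helper67.JZ.gramF (Ω := T (r + s) × T s)
      (ι := {σ // σ ∈ tor r q}) ((mm (r + s)).prod ν) (1 / (q : ℝ) ^ r) (by positivity)
      (fun i k z => Wk S φ k c (sn (ini z.1 + i.1) (las z.1 + (κ i.1 (ini z.1) + z.2))))
      (fun _ k z => Wk S φ k c z.1) C
      (fun i k => (hg k).aesm.comp_measurePreserving (mp_tau hF i.1 (hκ i.1 i.2) ν))
      (fun _ k => (hg k).aesm.comp_measurePreserving measurePreserving_fst)
      (fun i k z => hC k _) (fun _ k z => hC k _)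
    refine ⟨V, i1, i2, i3, w, fun k k' => ?_⟩
    rw [hw k k']
    show _ = ((NT q t (EE S φ c k k') : ℝ) : ℂ)
    rw [hMTR r s θ f q t κ ν (EE S φ c k k') hq ht hκ hκ2 hν hν2 (hE k k'),
      ← Finset.sum_coe_sort (tor r q)]
    push_cast
    rw [div_mul_eq_mul_div, one_mul]
    rfl
  · intro k k'
    show NT q t (EE S φ c (k + 1) (k' + 1)) = NT q t (EE S φ c k k')
    rw [hshift k k']
    exact (hNTF r s θ f q t (EE S φ c k k') (EE S φ c k k') hq hf.measurable ht
      ((hE k k').memLp 2) ((hE k k').memLp 2)).2.2.2.1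
  · obtain ⟨V, i1, i2, i3, w, hw⟩ := Pool.Agent.Helper67.JZ.gramF (Ω := T (r + s) × T (r + s))
      (ι := Unit) ((mm (r + s)).prod (mm (r + s))) 1 (by norm_num)
      (fun _ k z => Wk S φ k c z.1) (fun _ k z => Wk S φ k c z.2) C
      (fun _ k => (hg k).aesm.comp_measurePreserving measurePreserving_fst)
      (fun _ k => (hg k).aesm.comp_measurePreserving measurePreserving_snd)
      (fun _ k z => hC k _) (fun _ k z => hC k _)
    refine ⟨V, i1, i2, i3, w, fun k k' => ?_⟩
    rw [hw k k']
    have e : ∫ z : T (r + s) × T (r + s), EE S φ c k k' z.1 * conj (EE S φ c k k' z.2)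
        ∂((mm (r + s)).prod (mm (r + s))) =
        ((‖∫ y, EE S φ c k k' y ∂(mm (r + s))‖ ^ 2 : ℝ) : ℂ) := by
      rw [integral_prod_mul (fun y => EE S φ c k k' y) (fun y => conj (EE S φ c k k' y)),
        integral_conj, Complex.mul_conj', Complex.ofReal_pow]
    rw [← e, Finset.univ_unique, Finset.sum_singleton, Complex.ofReal_one, one_mul]
    rfl
  · intro k k'
    show ‖∫ y, EE S φ c (k + 1) (k' + 1) y ∂(mm (r + s))‖ ^ 2 = _
    rw [hshift k k']
    congr 2
    have h1 := integral_map hmp.measurable.aemeasurable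
      (by rw [hmp.map_eq]; exact (hE k k').aesm)
    rw [hmp.map_eq] at h1
    exact h1.symm

end Pool.Agent.Helper40.KZ
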